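import Pool.Agent.T9h37.CT.RkMain

/-!
# The crystalline Tate conjecture for the products of abelian varieties with varieties whose Frobenius
eigenvalues have a larger rank or degree, for example K3 surfaces of odd height

Let `Y` be an abelian variety and `V` an **arbitrary** smooth proper variety over the field `k` with
`Q = p ^ N` elements. Suppose that each eigenvalue `α` of Frobenius on a crystalline cohomology group
`H^b(V)` is separated from `Y` in one of the following ways (`AllSepRk`):

1. (field) no power of `α` is in the compositum of the CM fields of `Y` and their conjugates;
2. (degree) for some odd prime number `ℓ` the degrees of all powers of `α` are divisible by `ℓ`, and the simple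
   factors of `Y` over the algebraic closure (more precisely: the given CM factors) have dimensions
   smaller than `ℓ`;
3. (rank) the rank of `α` (the rank of the multiplicative group generated by the conjugates of `α`, modulo
   the powers of `p` and roots of unity) is greater than the rank of `Y`;
4. `α` is the product of `Q ^ (b / 2)` and a root of unity (all slopes of `α` are `b / 2`), and it is
   not of supersingular type if `b` is odd;

or that `V` is of K3 type in the following sense (`IsK3Sep`): the eigenvalues on `H^b(V)` are products of
`Q ^ (b / 2)` and roots of unity, or (over a finite extension) of conjugates of a number `α` of absolute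
value one which has the properties of the Frobenius eigenvalues of the transcendental part of a K3
surface of finite height (`IsK3Frobenius`; Zarhin, Yu and Yui). Let `2 d = [ℚ(α) : ℚ]`, and let `m` be the
number of the conjugates of `α` of negative slope. We assume that

5. an odd prime number `ℓ` divides `d`, and all factors of `Y` have dimensions smaller than `ℓ`; or
6. `m` is odd, `d ≤ 10`, `(d, m)` is not one of the pairs `(6, 3), (9, 3), (10, 3), (10, 5)`, and the sum of
   the dimensions of the pairwise nonisogenous and not supersingular simple factors of `Y` is smaller
   than `d`. (The factors of `Y` can have arbitrary multiplicities, and there can be any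
   supersingular factor.)

**Theorem.** The crystalline Tate conjecture for `Y` and for `V`, over all finite extensions of `k`, implies the
crystalline Tate conjecture for `Y × V`, in all codimensions `c`:

* each class in `H^{2c}(Y × V)` on which the linear Frobenius endomorphism acts as `Q ^ c` is a linear
  combination of classes of algebraic cycles with coefficients in the fraction field `K` of the ring of
  Witt vectors of `k`; if the generalised Tate classes of `V`, with exponent `r`, are algebraic, the same
  holds for `Y × V`, and all generalised Tate classes of exponent `r` are Tate classes;
* each class which is multiplied by `p ^ c` by the semilinear crystalline Frobenius endomorphism is a linear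
  combination of classes of algebraic cycles with coefficients in the field of `p`-adic numbers.

For `Y` nothing has to be assumed if its dimension is at most five, or if it is any product of elliptic curves
and abelian surfaces, or of abelian threefolds under a mild condition (`KnownY`: theorems of Tate, Markman
and Ramón Marí, and the starting files).

**Examples** (unconditional, all codimensions). For a K3 surface `S` of height `h < ∞` and geometric
Picard number `ρ` one has `22 - ρ = 2 d ε` and `h = m ε`; the Tate conjecture for `S` is known (Nygaard, Ogus,
Maulik, Charles, Madapusi Pera, Kim).

* **Ordinary K3 surfaces** `S` (`h = m = ε = 1`, so `2 d = 22 - ρ`): crystalline Tate holds for `Y × S` for all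
  abelian varieties `Y` of dimension at most five if `ρ ≤ 10`, and for all products `Y` of
  arbitrary powers of pairwise nonisogenous elliptic curves and abelian surfaces if the sum of their
  dimensions is smaller than `(22 - ρ) / 2`; and for each `Y` with this bound for which the crystalline Tate
  conjecture is known. The slopes of ordinary K3 surfaces are integers, so the criterion with the group of
  slopes (`SlopeSeparatedProducts`) gives nothing here.
* All K3 surfaces `S` of odd height `h`, except for the four exceptional pairs, with `ρ ≤ 10`, `ε = 1`, and all
  `Y` of dimension at most five.
* All K3 surfaces of finite height such that `7` divides `d` (`22 - ρ = 14`, `h ≠ 7`), of even height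
  too, and all `Y` of dimension at most five; such that `5` divides `d` (`22 - ρ` is `10` or `20`, `5` does
  not divide `h`) and all `Y` with factors of dimension at most four for which the crystalline Tate
  conjecture is known.
* Products of two abelian varieties `Y`, `V`, or of an abelian variety `Y` with any surface, threefold or
  product of such varieties `V`, with known crystalline Tate conjectures, such that the conditions
  1 - 4 hold.

**What was known.** The starting file `MP_0f183b_ag.K3TimesSurfaces` treats (`ℓ`-adic) Tate classes on
products of K3 surfaces with products of elliptic curves and abelian surfaces;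
`MP_950c68_ag.AbelianTimesKThree`, `FiveAndSurfacesTimesVarieties` treat abelian varieties `Y` with large Galois
groups and varieties whose eigenvalues are independent of the CM fields of `Y`;
`MP_950c68_ag.K3OddHeight` treats the powers of one K3 surface of odd height. There is no assumption on
Galois groups or on the relation between the fields here, and the conjecture is the crystalline one.

**The model** is the one of `SlopeSeparatedProducts`: `Y` is given by `RedAV`, `k` is the extension of degree `s`
of its ground field, with `p ^ N` elements, `N = Y.a * s`, `K` is the fraction field of the ring of Witt
vectors of `k`, with the Frobenius automorphism `σ`; `Ω` is an algebraically closed field which contains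
`K`; `D` is the dual space of the first crystalline cohomology group of `Y`, with the linear and semilinear
Frobenius endomorphisms `F₀` and `Ψ`; `Ω ⊗ D` is identified by `e` with `Ω ⊗ H_1`, where `F₀` is the
multiplication by `π ^ s` (`IsFirst`). `M b` is the crystalline cohomology group `H^b(V)`, with the semilinear
and linear Frobenius endomorphisms `Φ b`, `φ b`. By the Künneth formula `H^{2c}(Y × V)` is the sum of the
spaces of the alternating maps in `2 c - b` variables from `D` to `M b` (`CohYV`). `A k` and `B b` are the
sets of the linear combinations, with coefficients in `Ω`, of the classes of algebraic cycles on `Y` and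
`V` over finite extensions of `k`, and `Cyc` is the set of the classes of the algebraic cycles of
codimension `c` on `Y × V` over `k`; the facts used on them are `IsFixedYV` (the semilinear Frobenius multiplies
them by `p ^ c`) and `HasProducts` (products of cycles are cycles).

Idea of the proof. A Tate class on `Y × V` gives a relation `(∏ λ_i) ^ s α ^ t = Q ^ c` between Frobenius
eigenvalues `λ_i` of `Y` and `α` of `V`. Then a power of `α` is in the compositum of the CM fields of `Y`, and
the rank of `α` is at most the rank of `Y`, which is at most the sum of the dimensions of its nonisogenous
factors which are not supersingular. The degree of a power of `α` divides the order of the Galois group of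
the compositum, which is not divisible by primes `ℓ` if all CM fields have degrees `< 2 ℓ`: their maximal
totally real subfields have degrees `< ℓ`. For K3 surfaces of odd height the logarithms of the absolute
values of the conjugates of `α` span a space of dimension `d`; this follows from the combinatorial theorem on
transitive groups of degree `≤ 20` in the starting files (`Y138.KC`).
-/

set_option autoImplicit false

namespace Pool.Agent.Results.MP_60ec62_ag.RankAndDegree

open Module Pool.Agent.W495.TA Pool.Agent.TH117.F5 Pool.Agent.R299.CRY Pool.Agent.T9h37.CT
open scoped TensorProduct

/-- **The crystalline Tate conjecture for `Y × V`**, `Y` an abelian variety and `V` an arbitrary variety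
over a finite field whose Frobenius eigenvalues are separated from `Y` by the field, the degree or the
rank, or of K3 type of odd height, in the linear form (and for generalised eigenspaces) and in the form with
`p`-adic coefficients. -/
theorem result (p : ℕ) [Fact p.Prime] (ν : PadicAlgCl p ≃+* ℂ) (K Ω D : Type) [Field K] [CharZero K]
    [Field Ω] [IsAlgClosed Ω] [CharZero Ω] [Algebra K Ω] [AddCommGroup D] [Module K D]
    [FiniteDimensional K D] (M : ℕ → Type) [∀ b, AddCommGroup (M b)] [∀ b, Module K (M b)]
    [∀ b, FiniteDimensional K (M b)]
    -- the abelian variety `Y`, and its crystalline cohomology over the field with `p ^ (Y.a * s)` elements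
    (Y : RedAV p ν) (s : ℕ) (hs : 0 < s) (σ : K ≃+* K) (Ψ : D → D) (F₀ : D →ₗ[K] D)
    (e : (Ω ⊗[K] D) ≃ₗ[Ω] TM Ω Y) (hΨ : IsDualFrob (Y.a * s) σ Ψ F₀) (he : IsFirst Y s F₀ e)
    -- the crystalline cohomology groups of the variety `V` over this field
    (Φ : ∀ b, M b → M b) (φ : ∀ b, M b →ₗ[K] M b) (hΦ : ∀ b, IsFrob (Y.a * s) σ (Φ b) (φ b))
    (hsep : AllSepRk Ω Y (Y.a * s) φ ∨ IsK3Sep Ω Y (Y.a * s) φ)
    -- the Tate conjecture for `Y` and `V`
    (A : ∀ k, Set ((TM Ω Y) [⋀^Fin k]→ₗ[Ω] Ω)) (hA : KnownY Y A)
    (B : ∀ b, Set (Ω ⊗[K] M b)) (r : ℕ) (hr : 0 < r) (hB : TateV p (Y.a * s) φ B r)
    -- the classes of algebraic cycles of codimension `c` on `Y × V`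
    (c : ℕ) (Cyc : Set (CohYV K D M c)) (hC : ∀ z ∈ Cyc, IsFixedYV p Ψ Φ z)
    (hZ : HasProducts (Y.a * s) e F₀ φ A B Cyc) :
    (∀ f : CohYV K D M c, IsTateYV p (Y.a * s) F₀ φ r f →
      f ∈ Submodule.span K Cyc ∧ IsTateYV p (Y.a * s) F₀ φ 1 f) ∧
      ∀ f : CohYV K D M c, IsFixedYV p Ψ Φ f → IsPadicComb σ Cyc f :=
  bundled_rk Y s hs σ Ψ F₀ e hΨ he Φ φ hΦ hsep A hA B r hr hB c Cyc hC hZ

end Pool.Agent.Results.MP_60ec62_ag.RankAndDegree
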