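import Pool.Agent.T9h37.CT.Bundle

/-!
# The crystalline Tate conjecture for the products of abelian varieties with arbitrary varieties whose
slopes are separated

Let `Y` be an abelian variety and `V` an **arbitrary** smooth proper variety over the field `k` with
`Q = p ^ N` elements. Suppose that the eigenvalues `α` of Frobenius on the crystalline cohomology groups
`H^b(V)`, `b ≥ 0`, are *separated* from `Y` (`IsSep`). This means: the slope of some conjugate of `α` is not in
the group `SlopeGroup Y` generated by `1` and the slopes of `Y`; or

* all slopes of the conjugates of `α` are equal to `b / 2` (`α` is a power of the square root of `Q` up to a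
  root of unity); or
* `α` is independent of `Y` (for some `n > 0` the intersection of the field of `α ^ n` with the compositum of
  the Galois closures of the CM fields of `Y` is totally real); or
* `Y` is a product of elliptic curves and abelian surfaces, and some slope of a conjugate of `α` is not in
  `(1/2) ℤ`, or some number `|2 s - b|`, `s` a slope, is greater than two times the mean value of their squares,
  or the Galois groups of the powers of `α` are large (`HasLargeGalois`);

and, in these last three cases, `α` is not of supersingular type if `b` is odd.

**Theorem.** The crystalline Tate conjecture for `Y` and for `V`, over all finite extensions of `k`, implies the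
crystalline Tate conjecture for `Y × V`, in all codimensions `c`:

1. each class in `H^{2c}(Y × V)` on which the linear Frobenius endomorphism acts as `Q ^ c` is a linear
   combination of classes of algebraic cycles with coefficients in the fraction field `K` of the ring of
   Witt vectors of `k`; if the generalised Tate classes of `V`, with exponent `r`, are algebraic (Tate
   conjecture and semisimplicity), the same holds for `Y × V`, and all generalised Tate classes of
   exponent `r` are Tate classes, so that the number of independent cycles is the order of the pole of the
   zeta function at `s = c`;
2. each class which is multiplied by `p ^ c` by the semilinear crystalline Frobenius endomorphism is a linear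
   combination of classes of algebraic cycles with coefficients in the field of `p`-adic numbers, the fixed
   field of the Frobenius automorphism `σ` of `K`.

For `Y` nothing has to be assumed if its dimension is at most five, or if it is any product of elliptic curves
and abelian surfaces, or of abelian threefolds under a mild condition (`IsGoodAVS`): in these cases the
Tate classes are algebraic by theorems of Tate, Markman and Ramón Marí and the starting files (`KnownY`).

**Examples** (unconditional, in all codimensions).

* `V` a K3 surface (Tate conjecture: Charles, Madapusi Pera, Kim-Madapusi Pera) of finite height `h`. Each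
  eigenvalue on `H^2(V)` which is not `Q` times a root of unity has a conjugate of slope `1 - 1/h`; so `V` is
  separated from `Y` if `1/h` is not in the group of the slopes of `Y`. So crystalline Tate holds for
  `Y × V`: if `h ≥ 2` and `Y` is ordinary of dimension at most five, or an ordinary abelian variety of
  any dimension with the crystalline Tate conjecture, for example a product of ordinary elliptic curves; if
  `h ≥ 3` and `Y` is any product of elliptic curves and abelian surfaces; if `h ≥ 7` and `Y` is any
  abelian variety of dimension at most five (the least common multiple of the denominators of its slopes is
  at most six).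
* `V = S × S` for such K3 surfaces `S` (Tate conjecture: Ito, Ito, Koshikawa, `p ≥ 5`), if also `2/h` is
  not in the group of the slopes of `Y`.
* Any surface or threefold `V` for which the `ℓ`-adic Tate conjecture is known, and which is separated from
  `Y`: in dimension at most three the two conjectures are equivalent. So for such `V` the `ℓ`-adic Tate
  conjecture for `V` implies the crystalline one for `Y × V`, a variety of any dimension.

**What was known.** The starting file `MP_557161_ag.SeparatedTimesSurfaces` treats `ℓ`-adic Tate classes (over
the closure of the ground field) for products `Y` of elliptic curves and abelian surfaces, and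
`MP_60ec62_ag.*` the crystalline conjecture for abelian varieties. New are the criterion with the group of slopes
for arbitrary abelian varieties `Y`, and the crystalline conjecture, in both forms, for products with
varieties `V` which are not abelian.

**The model.** `Y` is given by `RedAV` (by Honda and Tate each abelian variety over a finite field is, over a finite
extension, isogenous to the reduction of a product of CM abelian varieties whose Frobenius elements
satisfy the formula of Shimura and Taniyama), over the field with `p ^ Y.a` elements, and `k` is its extension of
degree `s`, with `p ^ N` elements, `N = Y.a * s`. `K` is the fraction field of the ring of Witt vectors of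
`k`, with the Frobenius automorphism `σ`; `Ω` is an algebraically closed field which contains `K`. `D` is the
dual space of the first crystalline cohomology group of `Y`, with the linear Frobenius endomorphism `F₀` and
the semilinear Frobenius endomorphism `Ψ` (`IsDualFrob`); `Ω ⊗ D` is identified by `e` with `Ω ⊗ H_1`, where
`F₀` is the multiplication by `π ^ s` (`IsFirst`). `M b` is the crystalline cohomology group `H^b(V)`, a space
over `K` with the semilinear Frobenius endomorphism `Φ b` and its `N`-th power, the linear Frobenius
endomorphism `φ b` (`IsFrob`). By the Künneth formula `H^{2c}(Y × V)` is the sum of the spaces of the alternating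
maps in `2 c - b` variables from `D` to `M b` (`CohYV`). `A k` and `B b` are the sets of the linear combinations,
with coefficients in `Ω`, of the classes of algebraic cycles on `Y` and `V` over finite extensions of `k`, and
`Cyc` is the set of the classes of the algebraic cycles of codimension `c` on `Y × V` over `k`. Of these
only the following known facts are used: the elements of `Cyc` are multiplied by `p ^ c` by the semilinear
Frobenius (`IsFixedYV`), and (`HasProducts`) a generalised Tate class over `K` which over `Ω` is a linear
combination of products of classes of algebraic cycles on `Y` and `V` is in the linear span of `Cyc` (products of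
cycles are cycles over a finite extension of `k`; one takes the average of their conjugates).

Idea of the proof. A Tate class on `Y × V` gives relations `(∏ λ_i) ^ s α = Q ^ c` between Frobenius
eigenvalues `λ_i` of `Y` and `α` of `V`. The slopes of all conjugates of `α` are then in the group of the slopes
of `Y`, and in the other cases `∏ λ_i` itself is a power of the square root of `Q` up to a root of
unity; so the class is a combination of products of Tate classes on `Y` and `V`.
-/

set_option autoImplicit false

namespace Pool.Agent.Results.MP_60ec62_ag.SlopeSeparatedProducts

open Module Pool.Agent.W495.TA Pool.Agent.TH117.F5 Pool.Agent.R299.CRY Pool.Agent.T9h37.CT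
open scoped TensorProduct

/-- **The crystalline Tate conjecture for `Y × V`**, `Y` an abelian variety and `V` an arbitrary variety
over a finite field with separated Frobenius eigenvalues, in the linear form (and for generalised
eigenspaces) and in the form with `p`-adic coefficients. -/
theorem result (p : ℕ) [Fact p.Prime] (ν : PadicAlgCl p ≃+* ℂ) (K Ω D : Type) [Field K] [CharZero K]
    [Field Ω] [IsAlgClosed Ω] [CharZero Ω] [Algebra K Ω] [AddCommGroup D] [Module K D]
    [FiniteDimensional K D] (M : ℕ → Type) [∀ b, AddCommGroup (M b)] [∀ b, Module K (M b)]
    [∀ b, FiniteDimensional K (M b)]
    -- the abelian variety `Y`, and its crystalline cohomology over the field with `p ^ (Y.a * s)` elements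
    (Y : RedAV p ν) (s : ℕ) (hs : 0 < s) (σ : K ≃+* K) (Ψ : D → D) (F₀ : D →ₗ[K] D)
    (e : (Ω ⊗[K] D) ≃ₗ[Ω] TM Ω Y) (hΨ : IsDualFrob (Y.a * s) σ Ψ F₀) (he : IsFirst Y s F₀ e)
    -- the crystalline cohomology groups of the variety `V` over this field
    (Φ : ∀ b, M b → M b) (φ : ∀ b, M b →ₗ[K] M b) (hΦ : ∀ b, IsFrob (Y.a * s) σ (Φ b) (φ b))
    (hsep : AllSeparated Ω Y (Y.a * s) φ)
    -- the Tate conjecture for `Y` and `V`
    (A : ∀ k, Set ((TM Ω Y) [⋀^Fin k]→ₗ[Ω] Ω)) (hA : KnownY Y A)
    (B : ∀ b, Set (Ω ⊗[K] M b)) (r : ℕ) (hr : 0 < r) (hB : TateV p (Y.a * s) φ B r)
    -- the classes of algebraic cycles of codimension `c` on `Y × V`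
    (c : ℕ) (Cyc : Set (CohYV K D M c)) (hC : ∀ z ∈ Cyc, IsFixedYV p Ψ Φ z)
    (hZ : HasProducts (Y.a * s) e F₀ φ A B Cyc) :
    (∀ f : CohYV K D M c, IsTateYV p (Y.a * s) F₀ φ r f →
      f ∈ Submodule.span K Cyc ∧ IsTateYV p (Y.a * s) F₀ φ 1 f) ∧
      ∀ f : CohYV K D M c, IsFixedYV p Ψ Φ f → IsPadicComb σ Cyc f :=
  bundled Y s hs σ Ψ F₀ e hΨ he Φ φ hΦ hsep A hA B r hr hB c Cyc hC hZ

end Pool.Agent.Results.MP_60ec62_ag.SlopeSeparatedProducts
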