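import Pool.Agent.T9h63.SC.Main

/-!
# The crystalline Tate conjecture for cyclic coverings with split cycles: nontrivial classes in the
middle codimension

Let `k` be a finite field with `q` elements, `ℓ` a prime number which divides `q - 1`, `m = ℓ ^ a`, and
`X` a smooth projective variety of dimension `N` over `k`. Let `f` be a form of degree `m e` such that the
hypersurface section `B = {f = 0}` of `X` is smooth, and let

  `V : w ^ m = f(x), x ∈ X`

be the cyclic covering of degree `m` of `X` with the branch locus `B`.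

**Zeta functions.** Let `P_i = det (1 - T Frob | H^i(X))`, `P_B` the same for the new part
`H^{N-1}(B) / H^{N-1}(X)` and `R` the same for the new part `H^N(V) / H^N(X)`. Since `B` is ample and `X - B`
is affine, the theorem of Lefschetz gives `H^i(B) = H^i(X)` for `i < N - 1` and `H^i(V) = H^i(X)` for
`i ≠ N`, and with the hard Lefschetz theorem the numbers of points of `X`, `B` and `V` are those of the
definition `IsCovering`. Then

1. `R · P_{N-1} ^ (m - 1) ≡ (P_N · P_B) ^ (m - 1)` modulo `ℓ`;
2. if `μ(P)` is the multiplicity of the root `1` of `P` modulo `ℓ`, then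
   `μ(R) + (m - 1) μ(P_{N-1}) = (m - 1) (μ(P_N) + μ(P_B))`;
3. let `n > 0` be such that no cyclotomic polynomial `Φ_e`, for a divisor `e > 1` of `n` prime to `ℓ`,
   divides `P_N · P_B` modulo `ℓ` (no condition if `n` is a power of `ℓ`). Then at most
   `μ(P_N R) = μ(P_N) + μ(R)` eigenvalues `α` of Frobenius on `H^N(V)`, with multiplicities, satisfy
   `α ^ n = q ^ (j n)`: an upper bound for the dimension of the space of the Tate classes over the field
   `k_n` with `q ^ n` elements;
4. if `Q` is the polynomial `det (1 - T Frob)` of a cohomology group of any smooth projective variety `Z` over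
   `k`, and if modulo `ℓ` the polynomials `P_N · P_B` and the reciprocal polynomial of `Q` are coprime, then
   there are no Tate classes over the fields `k_n`, `n = ℓ ^ b`, in the product of `H^N(V)` and this group.

**Split cycles.** Let `N = 2 d`, and let `W_1, …, W_s` be cycles of codimension `d` on `X`, with `s = μ(P_N)`,
such that `ℓ` does not divide the determinant of the intersection matrix `(W_i · W_j)`, and such that the
restriction of `f` to (every component of) `W_i` is an `m`-th power of a section `g_i`: the preimage of `W_i`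
in `V` splits into the `m` cycles `W_(i,g) : w = ζ ^ g g_i`, for `g` in `ℤ/m` and a fixed primitive `m`-th root
of unity `ζ`. They are defined over the extensions of `k` which contain `ζ`. The intersection number
`W_(i,g) · W_(j,g')` depends only on `g' - g`, because the covering group acts transitively on the
components; it is `c i j (g' - g)`, and `∑_g c i j g = W_i · W_j` by the projection formula. Suppose

  `μ(P_B) = μ(P_{N-1})`,

for example, if the odd cohomology of `X` is zero, that `ℓ` does not divide `P_B(1)`. Then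

5. `μ(P_N · R) = m s`, and the determinant of the intersection matrix of the `m s` cycles `W_(i,g)` is
   not divisible by `ℓ`. In particular these cycles are independent;
6. let `n` be as in 3, and such that the field `k_n` contains `ζ`. Let `H = H^{2d}_crys(V_{k_n})`, with the
   linear Frobenius `Fr` and the semilinear Frobenius `Fr_p`. Then the generalised eigenspace of `Fr` for the eigenvalue `q ^ (n d)` is the
   eigenspace, and it is spanned by the classes of the `W_(i,g)`; every class with `Fr_p = p ^ d` is a
   combination of these classes with coefficients in `ℚ_p`, the fixed field of `σ`.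
   **So the crystalline Tate conjecture holds for `V` over `k_n` in the middle codimension `d`**, Frobenius is
   semisimple there, the space of the Tate classes has dimension `m s`, and the zeta function of `V` has a
   pole of order exactly `m s` at `s = d`; so also the `ℓ'`-adic Tate conjecture holds for all primes `ℓ'`.
   In the other codimensions the conjecture for `V` is that for `X`, as `H^{2c}(V) = H^{2c}(X)`;
7. if, for `Q` and `Z` as in 4, the only possible common root of `P_N · P_B` and of the reciprocal polynomial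
   of `Q` modulo `ℓ` (in an algebraic closure) is `1`, then the product of an eigenvalue on `H^{2d}(V)` which does not
   belong to the classes of the `W_(i,g)` and of an eigenvalue belonging to `Q` is never the product of a power of
   `q` and of a root of unity of `ℓ`-power order. If this holds for all cohomology groups of `Z`, then the
   Tate conjecture, in all codimensions, for `V × Z` follows from that for `Z` and `X × Z`, over the
   extensions of `k(ζ)` of degree `ℓ ^ b`.

By 5 the theorem can be applied again to `V`: with a form `f'` on `X` which is an `m'`-th power on every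
`W_i` and its covering of `V`, and so on; this gives towers in which all varieties have Tate classes of
unbounded rank, all algebraic.

**The basic case** is `X = ℙ^{2d}`, `s = 1`, `W : h_1 = … = h_d = 0` for forms `h_i`, and

  `V : w ^ m = g ^ m + h_1 k_1 + … + h_d k_d`.

If `V` is smooth, `ℓ` does not divide the degrees of the `h_i` and `ℓ` does not divide `P_B(1)`, then the
crystalline Tate conjecture holds for `V` in all codimensions over the fields in 6, and the space of the
Tate classes in the middle codimension has dimension `m` (and not one). In the same way one has quadrics,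
Grassmannians, products of projective spaces and all other varieties `X` with a cell decomposition, with
`s` the rank of the group of cycles of codimension `d`.

**An example.** Let `C` be the smooth quartic surface

  `F = x_0^3 x_3 + x_0 x_1^2 x_3 - x_0^2 x_1^2 - x_0 x_2^3 + x_1 x_3^3 + x_1 x_2^2 x_3 - x_1^3 x_2 = 0`

over the field with three elements, which contains the line `L : x_0 = x_1 = 0`. Counting the points of the
pencil of cubic curves residual to `L`, over the extensions of degree at most ten
(`13, 109, 838, 6481, 58888, 532900, 4790260, 43092649, 387381124, 3487191184` points),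
one finds that `H^2(C)` is the sum of the two classes of the hyperplane and of `L` and of a part of
dimension `20` with the polynomial `P_20 = 1 + 3 T - 27 T^3 + 324 T^5 + 729 T^6 - 1458 T^7 - 10935 T^8 +
59049 T^10 - …` (`c_{20-i} = 9 ^ (10-i) c_i`), which modulo `2` has neither the root `1` nor a cyclotomic
factor `Φ_e`, `e > 1` odd. By 1, with `X = ℙ^3`, `ℓ = 2`, `m = 4`, the threefold `B : y^4 = F(x)` has
`P_B ≡ P_20 ^ 3` modulo `2`. So 6 applies, with `X = ℙ^4`, `W : x_0 = x_1 = 0` and `m = 4`, to the **quartic
fourfold**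

  `V : w^4 = y^4 - F(x_0, x_1, x_2, x_3)` in `ℙ^5`:

over every finite extension of the field with nine elements the crystalline (and the `ℓ'`-adic) Tate
conjecture holds for the cycles of codimension two on `V`; they have rank `4` in `H^4(V)`, which has
dimension `184` and `h^{1,3} = 21`. In the same way the double covering `w^2 = y^4 - F(x)` of `ℙ^4`
satisfies the conjecture, with rank `2`, over all finite extensions of the field with three elements.

**Proof.** The Frobenius orbits of `V - B` above an orbit of length `r` have lengths `r ℓ ^ j`, and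
`1 - T ^ (r ℓ ^ j) ≡ (1 - T ^ r) ^ (ℓ ^ j)`; this gives 1. For 3, let `α` be an eigenvalue of Frobenius with
`α ^ n = q ^ (j n)`. The cyclotomic polynomial of the order of `α / q ^ j` divides `P_N · R` modulo `ℓ`, and
since it is a power of a squarefree cyclotomic polynomial the order is a power of `ℓ`. The minimal
polynomials of such numbers are powers of `T - 1` modulo `ℓ`. For 5, the kernel of the intersection matrix
modulo `ℓ` is a vector space over `𝔽_ℓ` with an action of the group `ℤ/m` of `ℓ`-power order; if it is not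
zero, then it contains a nonzero fixed vector, and this gives a nonzero vector in the kernel of the
matrix `(W_i · W_j)`. So the upper bound of 3 is attained, and this is 6.
-/

set_option autoImplicit false

namespace Pool.Agent.Results.MP_60ec62_ag.SplitCycles

open Polynomial

/-- The first nonzero coordinate of `v` is `1`: every point of the projective space has exactly one such
vector of homogeneous coordinates. -/
def Normalised {K : Type} [Field K] {r : ℕ} (v : Fin (r + 1) → K) : Prop :=
  ∃ i, v i = 1 ∧ ∀ j < i, v j = 0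

/-- The points, over the extension of degree `n` of the finite field `k`, of the subvariety of `ℙ^M`
defined by the equations in the set `E`. -/
def points (k : Type) [Field k] [Fintype k] {M : ℕ} (E : Set (MvPolynomial (Fin (M + 1)) k))
    (n : ℕ) : Set (Fin (M + 1) → AlgebraicClosure k) :=
  {v | Normalised v ∧ (∀ i, v i ^ Fintype.card k ^ n = v i) ∧
    ∀ g ∈ E, MvPolynomial.aeval v g = 0}

/-- The points `(x, w)`, over the extension of degree `n` of `k`, of the covering `w ^ m = f(x)` of the
subvariety of `ℙ^M` defined by `E`. -/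
def coverPoints (k : Type) [Field k] [Fintype k] {M : ℕ} (E : Set (MvPolynomial (Fin (M + 1)) k))
    (f : MvPolynomial (Fin (M + 1)) k) (m n : ℕ) :
    Set ((Fin (M + 1) → AlgebraicClosure k) × AlgebraicClosure k) :=
  {p | p.1 ∈ points k E n ∧ p.2 ^ Fintype.card k ^ n = p.2 ∧ p.2 ^ m = MvPolynomial.aeval p.1 f}

/-- The trace of `F ^ n`, if `P = det (1 - T F)`: the sum of the `n`-th powers of the inverse roots. -/
noncomputable def tr (P : ℤ[X]) (n : ℕ) : ℂ :=
  ((P.map (Int.castRingHom ℂ)).roots.map fun z => z⁻¹ ^ n).sum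

/-- The alternating sum of the traces of a power of Frobenius on the cohomology of a smooth projective
variety of dimension `N` over the field with `Q` elements: `t i` is the trace on `H^i` for `i < N`, so that
`Q ^ (N - i) t i` is the trace on `H^{2N-i}`, and `u` is the trace on `H^N`. -/
noncomputable def lefschetz (Q : ℂ) (N : ℕ) (t : ℕ → ℂ) (u : ℂ) : ℂ :=
  (∑ i ∈ Finset.range N, (-1) ^ i * (1 + Q ^ (N - i)) * t i) + (-1) ^ N * u

/-- The trace formula for a variety `X` of dimension `D + 1` with equations `E`, its section `B` by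
`f = 0` and its covering `V : w ^ m = f(x)`. Here `P i = det (1 - T Frob | H^i(X))` for `i ≤ D + 1`, and `PB`
and `R` are the same for `H^D(B) / H^D(X)` and `H^{D+1}(V) / H^{D+1}(X)`; the other cohomology groups of `B` (up
to duality) and of `V` are those of `X`. -/
structure IsCovering (k : Type) [Field k] [Fintype k] {M : ℕ} (m D : ℕ)
    (E : Set (MvPolynomial (Fin (M + 1)) k)) (f : MvPolynomial (Fin (M + 1)) k)
    (P : ℕ → ℤ[X]) (PB R : ℤ[X]) : Prop where
  one : ∀ i ≤ D + 1, (P i).coeff 0 = 1
  oneB : PB.coeff 0 = 1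
  oneV : R.coeff 0 = 1
  base : ∀ n > 0, ((points k E n).ncard : ℂ) = lefschetz ((Fintype.card k : ℂ) ^ n) (D + 1)
    (fun i => tr (P i) n) (tr (P (D + 1)) n)
  branch : ∀ n > 0, ((points k (insert f E) n).ncard : ℂ) = lefschetz ((Fintype.card k : ℂ) ^ n) D
    (fun i => tr (P i) n) (tr (P D) n + tr PB n)
  cover : ∀ n > 0, ((coverPoints k E f m n).ncard : ℂ) =
    lefschetz ((Fintype.card k : ℂ) ^ n) (D + 1) (fun i => tr (P i) n)
      (tr (P (D + 1)) n + tr R n)

/-- reduction modulo `ℓ` -/
noncomputable def modl (ℓ : ℕ) (P : ℤ[X]) : (ZMod ℓ)[X] := P.map (Int.castRingHom (ZMod ℓ))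

/-- the multiplicity `μ(P)` of the root `1` of `P` modulo `ℓ` -/
noncomputable def multOne (ℓ : ℕ) (P : ℤ[X]) : ℕ := (modl ℓ P).rootMultiplicity 1

open Classical in
/-- the number, with multiplicities, of the roots `z = 1 / α` of `P` such that `α ^ n = q ^ (j n)` -/
noncomputable def tateCount (q j n : ℕ) (P : ℤ[X]) : ℕ :=
  Multiset.card ((P.map (Int.castRingHom ℂ)).roots.filter fun z => (z * (q : ℂ) ^ j) ^ n = 1)

/-- `1 / z` is not the product of a power of `q` and of a root of unity of `ℓ`-power order -/
def NotTate (ℓ q : ℕ) (z : ℂ) : Prop := ∀ b i : ℕ, (z * (q : ℂ) ^ i) ^ ℓ ^ b ≠ 1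

/-- no cyclotomic polynomial `Φ_e`, for a divisor `e > 1` of `n` prime to `ℓ`, divides `P` modulo `ℓ` -/
def NoCyclotomic (ℓ n : ℕ) (P : ℤ[X]) : Prop :=
  ∀ e : ℕ, e ∣ n → 1 < e → ¬ ℓ ∣ e → ¬ cyclotomic e (ZMod ℓ) ∣ modl ℓ P

/-- The matrix of the intersection numbers of the cycles `W_(i,g)` which lie above the cycles `W_i`:
`c i j g` is the intersection number of `W_(i,0)` and `W_(j,g)`. -/
def intersectionMatrix {s m : ℕ} (c : Fin s → Fin s → ZMod m → ℤ) :
    Matrix (Fin s × ZMod m) (Fin s × ZMod m) ℤ := fun x y => c x.1 y.1 (y.2 - x.2)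

/-- `H` is the cohomology group `H^{2d}` with coefficients in the field `K` (contained in `ℂ`) of the
variety `V` over the extension of degree `n` of the field with `q` elements, `F` the linear Frobenius, whose
eigenvalues are the `n`-th powers of the inverse roots of `S`, `B` the cup product, and `w (i, g)` the classes
of the cycles `W_(i,g)`, which are defined over this extension. -/
structure IsMiddle (q d n : ℕ) {s m : ℕ} (S : ℤ[X]) (c : Fin s → Fin s → ZMod m → ℤ) {K H : Type}
    [Field K] [Algebra K ℂ] [AddCommGroup H] [Module K H] [FiniteDimensional K H]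
    (F : Module.End K H) (B : H →ₗ[K] H →ₗ[K] K) (w : Fin s × ZMod m → H) : Prop where
  eigenvalues : (F.charpoly.map (algebraMap K ℂ)).roots =
    (S.map (Int.castRingHom ℂ)).roots.map fun z => z⁻¹ ^ n
  frobenius : ∀ i, F (w i) = (q : K) ^ (d * n) • w i
  numbers : ∀ i j, B (w i) (w j) = (intersectionMatrix c i j : K)

/-- `φ` is the semilinear crystalline Frobenius: `φ ^ r` is the linear Frobenius `F`, and the classes
`w i` of cycles of codimension `d` satisfy `φ (w i) = p ^ d w i`. -/
structure IsSemilinear (p r d : ℕ) {ι K H : Type} [Field K] [AddCommGroup H] [Module K H]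
    (F : Module.End K H) (w : ι → H) (σ : K →+* K) (φ : H →+ H) : Prop where
  semilinear : ∀ (b : K) (x : H), φ (b • x) = σ b • φ x
  power : ∀ x, φ^[r] x = F x
  classes : ∀ i, φ (w i) = (p : K) ^ d • w i

/-- **The crystalline Tate conjecture for cyclic coverings with split cycles.**

Let `k` be a finite field with `q` elements, `ℓ` a prime number which divides `q - 1`, `X` a variety of
dimension `D + 1` with equations `E` and `V : w ^ m = f(x)`, `m = ℓ ^ a`, the cyclic covering of `X` which is
branched along `f = 0`, where `f` is a form of degree `m e`, with the polynomials `P i`, `PB` and `R` of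
`IsCovering`. Then

1. `R · (P D) ^ (m - 1) = (P (D + 1) · PB) ^ (m - 1)` modulo `ℓ`;
2. `μ(R) + (m - 1) μ(P D) = (m - 1) (μ(P (D + 1)) + μ(PB))`;
3. for all `j` and all `n > 0` such that no `Φ_e`, for a divisor `e > 1` of `n` prime to `ℓ`, divides
   `P (D + 1) · PB` modulo `ℓ`, the number of the inverse roots `α` of `P (D + 1) · R` with `α ^ n = q ^ (j n)`
   is at most `μ(P (D + 1) · R)`;
4. if `Q(0) = 1` and `P (D + 1) · PB` and the reciprocal polynomial of `Q` are coprime modulo `ℓ`, then there
   are no inverse roots `α` of `P (D + 1) · R` and `β` of `Q` such that `α β = q ^ i ζ` for a root of unity `ζ`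
   of `ℓ`-power order;
5. let `D + 1 = 2 d`, `s = μ(P (2 d))`, `μ(PB) = μ(P D)`, and let `c` be the intersection numbers of the
   `m s` cycles which lie above `s` cycles of codimension `d` on `X` whose intersection matrix
   `(∑_g c i j g)` has a determinant prime to `ℓ`. Then `μ(P (2 d) · R) = s m`, and the determinant of the
   intersection matrix of the `m s` cycles is prime to `ℓ`; and for all `n` as in 3 and all `H`, `F`, `B`, `w`
   as in `IsMiddle` (the cohomology of `V` over the extension of degree `n`):
   * the classes `w i` are independent over `K`, and the generalised eigenspace of `F` for the eigenvalue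
     `q ^ (d n)` is spanned by them;
   * every `x` with `φ x = p ^ d x`, for the semilinear Frobenius `φ` of `IsSemilinear`, where `p ^ r = q ^ n`, is
     a combination of the classes `w i` with coefficients in the fixed field of `σ`;
   * if `Q(0) = 1` and if every irreducible polynomial which divides both `P (2 d) · PB` and the reciprocal
     polynomial of `Q` modulo `ℓ` has the root `1`, then there are no inverse roots `α` of `P (2 d) · R` and
     `β` of `Q` such that `α β = q ^ i ζ` for a root of unity `ζ` of `ℓ`-power order, unless `α` itself is such a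
     product. -/
theorem result (k : Type) [Field k] [Fintype k] (ℓ : ℕ) [Fact ℓ.Prime]
    (hk : ℓ ∣ Fintype.card k - 1) (M D a e : ℕ) (E : Set (MvPolynomial (Fin (M + 1)) k))
    (_hE : ∀ g ∈ E, ∃ i, g.IsHomogeneous i) (f : MvPolynomial (Fin (M + 1)) k)
    (_hf : f.IsHomogeneous (ℓ ^ a * e)) (P : ℕ → ℤ[X]) (PB R : ℤ[X])
    (h : IsCovering k (ℓ ^ a) D E f P PB R) :
    modl ℓ R * modl ℓ (P D) ^ (ℓ ^ a - 1) = (modl ℓ (P (D + 1)) * modl ℓ PB) ^ (ℓ ^ a - 1) ∧
    multOne ℓ R + (ℓ ^ a - 1) * multOne ℓ (P D) =
      (ℓ ^ a - 1) * (multOne ℓ (P (D + 1)) + multOne ℓ PB) ∧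
    (∀ j n, 0 < n → NoCyclotomic ℓ n (P (D + 1) * PB) →
      tateCount (Fintype.card k) j n (P (D + 1) * R) ≤ multOne ℓ (P (D + 1) * R)) ∧
    (∀ Q : ℤ[X], Q.coeff 0 = 1 → IsCoprime (modl ℓ (P (D + 1) * PB)) (modl ℓ Q).reverse →
      ∀ z y : ℂ, ((P (D + 1) * R).map (Int.castRingHom ℂ)).eval z = 0 →
      (Q.map (Int.castRingHom ℂ)).eval y = 0 → NotTate ℓ (Fintype.card k) (z * y)) ∧
    ∀ (d s : ℕ) (c : Fin s → Fin s → ZMod (ℓ ^ a) → ℤ), D + 1 = 2 * d →
      multOne ℓ (P (2 * d)) = s → multOne ℓ PB = multOne ℓ (P D) →
      ¬ (ℓ : ℤ) ∣ (Matrix.of fun i j => ∑ g, c i j g).det →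
      multOne ℓ (P (2 * d) * R) = s * ℓ ^ a ∧ ¬ (ℓ : ℤ) ∣ (intersectionMatrix c).det ∧
      ∀ n > 0, NoCyclotomic ℓ n (P (2 * d) * PB) →
      ∀ (K H : Type) [Field K] [Algebra K ℂ] [AddCommGroup H] [Module K H]
        [FiniteDimensional K H] (F : Module.End K H) (B : H →ₗ[K] H →ₗ[K] K)
        (w : Fin s × ZMod (ℓ ^ a) → H),
        IsMiddle (Fintype.card k) d n (P (2 * d) * R) c F B w →
        (LinearIndependent K w ∧
        F.maxGenEigenspace ((Fintype.card k : K) ^ (d * n)) = Submodule.span K (Set.range w)) ∧
        (∀ (p r : ℕ) (σ : K →+* K) (φ : H →+ H), p ^ r = Fintype.card k ^ n →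
          IsSemilinear p r d F w σ φ → ∀ x, φ x = (p : K) ^ d • x →
          ∃ b : Fin s × ZMod (ℓ ^ a) → K, (∀ i, σ (b i) = b i) ∧ x = ∑ i, b i • w i) ∧
        ∀ Q : ℤ[X], Q.coeff 0 = 1 → (∀ g : (ZMod ℓ)[X], Irreducible g →
          g ∣ modl ℓ (P (2 * d) * PB) → g ∣ (modl ℓ Q).reverse → g.eval 1 = 0) →
          ∀ z y : ℂ, ((P (2 * d) * R).map (Int.castRingHom ℂ)).eval z = 0 →
          NotTate ℓ (Fintype.card k) z → (Q.map (Int.castRingHom ℂ)).eval y = 0 →
          NotTate ℓ (Fintype.card k) (z * y) := by
  have hℓ : ℓ.Prime := Fact.out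
  have hqm : ((Fintype.card k : ℕ) : ZMod ℓ) = 1 := Pool.Agent.W555.TC.q_mod hk
  have hm1 : ℓ ^ a - 1 + 1 = ℓ ^ a := Nat.sub_add_cancel (Nat.one_le_pow _ _ hℓ.pos)
  -- the traces
  have hnew : ∀ i : ℕ, ∃ t : ℕ → ℤ, i ≤ D + 1 →
      Pool.Agent.W555.TC.LogCoeffs (P i) (fun n => - t n) ∧ ∀ n, 0 < n → (t n : ℂ) = tr (P i) n := by
    intro i
    by_cases hi : i ≤ D + 1
    · obtain ⟨t, h1, h2⟩ := Pool.Agent.T9h63.SC.newton (h.one i hi)
      exact ⟨t, fun _ => ⟨h1, h2⟩⟩
    · exact ⟨fun _ => 0, fun h => absurd h hi⟩
  choose t ht using hnew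
  obtain ⟨tB, hB1, hB2⟩ := Pool.Agent.T9h63.SC.newton h.oneB
  obtain ⟨tR, hR1, hR2⟩ := Pool.Agent.T9h63.SC.newton h.oneV
  have hlef : ∀ (N n : ℕ) (u : ℤ) (v : ℂ), N ≤ D + 1 → 0 < n → (u : ℂ) = v →
      (Pool.Agent.T9h63.SC.lef (Fintype.card k) N t (fun _ => u) n : ℂ)
        = lefschetz ((Fintype.card k : ℂ) ^ n) N (fun i => tr (P i) n) v := by
    intro N n u v hN hn huv
    unfold Pool.Agent.T9h63.SC.lef lefschetz
    push_cast
    rw [huv]
    congr 1
    apply Finset.sum_congr rfl
    intro i hi
    have hi' : i ≤ D + 1 := by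
      have := Finset.mem_range.1 hi
      omega
    rw [(ht i hi').2 n hn]
  have hcong : modl ℓ R * modl ℓ (P D) ^ (ℓ ^ a - 1)
      = (modl ℓ (P (D + 1)) * modl ℓ PB) ^ (ℓ ^ a - 1) := by
    refine Pool.Agent.T9h63.SC.cong (K := AlgebraicClosure k) E f hk a D P t PB R tB tR
      (fun i hi => (ht i hi).1) hB1 hR1 ?_ ?_ ?_
    · intro n hn
      have h1 := h.base n hn
      rw [← hlef (D + 1) n (t (D + 1) n) _ le_rfl hn ((ht (D + 1) le_rfl).2 n hn)] at h1
      have h2 : ((points k E n).ncard : ℤ)
          = Pool.Agent.T9h63.SC.lef (Fintype.card k) (D + 1) t (fun _ => t (D + 1) n) n := by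
        exact_mod_cast h1
      have h3 : Pool.Agent.T9h63.KT.cnt (Pool.Agent.W555.TC.Phi k (AlgebraicClosure k))
          (Pool.Agent.T9h63.KT.onE E) n = (points k E n).ncard := by
        unfold Pool.Agent.T9h63.KT.cnt
        congr 1
        ext v
        simp only [points, Set.mem_setOf_eq, Pool.Agent.W555.TC.per_iff,
          Pool.Agent.T9h63.KT.onE, Pool.Agent.W555.TC.ev, Pool.Agent.W555.TC.Nrm, Normalised]
        tauto
      rw [h3, h2]
      rfl
    · intro n hn
      have h1 := h.branch n hn
      rw [← hlef D n (t D n + tB n) _ (by omega) hn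
        (by push_cast; rw [(ht D (by omega)).2 n hn, hB2 n hn]; rfl)] at h1
      have h2 : ((points k (insert f E) n).ncard : ℤ)
          = Pool.Agent.T9h63.SC.lef (Fintype.card k) D t (fun _ => t D n + tB n) n := by
        exact_mod_cast h1
      have h3 : Pool.Agent.T9h63.KT.cnt (Pool.Agent.W555.TC.Phi k (AlgebraicClosure k))
          (Pool.Agent.T9h63.SC.bB E f) n = (points k (insert f E) n).ncard := by
        unfold Pool.Agent.T9h63.KT.cnt
        congr 1
        ext v
        simp only [points, Set.mem_setOf_eq, Pool.Agent.W555.TC.per_iff,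
          Pool.Agent.T9h63.SC.bB, Pool.Agent.T9h63.KT.onE, Pool.Agent.W555.TC.ev,
          Pool.Agent.W555.TC.Nrm, Normalised, Set.mem_insert_iff, forall_eq_or_imp]
        tauto
      rw [h3, h2]
      rfl
    · intro n hn
      have h1 := h.cover n hn
      rw [← hlef (D + 1) n (t (D + 1) n + tR n) _ le_rfl hn
        (by push_cast; rw [(ht (D + 1) le_rfl).2 n hn, hR2 n hn]; rfl)] at h1
      have h2 : ((coverPoints k E f (ℓ ^ a) n).ncard : ℤ)
          = Pool.Agent.T9h63.SC.lef (Fintype.card k) (D + 1) t (fun _ => t (D + 1) n + tR n) n := by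
        exact_mod_cast h1
      have h3 : Pool.Agent.T9h63.KT.cnt (Pool.Agent.T9h63.SC.PV k (AlgebraicClosure k) M)
          (Pool.Agent.T9h63.SC.cv E f (ℓ ^ a)) n = (coverPoints k E f (ℓ ^ a) n).ncard := by
        unfold Pool.Agent.T9h63.KT.cnt
        congr 1
        ext v
        simp only [coverPoints, points, Set.mem_setOf_eq, Pool.Agent.T9h63.SC.PV_per,
          Pool.Agent.T9h63.SC.cv, Pool.Agent.T9h63.KT.onE, Pool.Agent.W555.TC.ev,
          Pool.Agent.W555.TC.Nrm, Normalised]
        tauto
      rw [h3, h2]
      rfl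
  have hmult : multOne ℓ R + (ℓ ^ a - 1) * multOne ℓ (P D)
      = (ℓ ^ a - 1) * (multOne ℓ (P (D + 1)) + multOne ℓ PB) :=
    Pool.Agent.T9h63.SC.mult_rel (h.one D (by omega)) (h.one (D + 1) le_rfl) h.oneB h.oneV hcong
  have hS0 : (P (D + 1) * R).coeff 0 = 1 := by
    rw [mul_coeff_zero, h.one (D + 1) le_rfl, h.oneV, one_mul]
  have hdvd := Pool.Agent.T9h63.SC.dvd_rel (l := ℓ) hcong
  refine ⟨hcong, hmult, ?_, ?_, ?_⟩
  · intro j n hn hcyc
    exact Pool.Agent.T9h63.SC.card_le hqm hS0 hdvd j hn hcyc
  · intro Q hQ0 hQ z y hz hy b i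
    exact Pool.Agent.T9h63.SC.prod_cop hqm hS0 hQ0 hdvd hQ hz hy b i
  intro d s c hd hs hPB hdet
  rw [← hd] at hs ⊢
  have hS : multOne ℓ (P (D + 1) * R) = s * ℓ ^ a := by
    have h1 : multOne ℓ (P (D + 1) * R) = multOne ℓ (P (D + 1)) + multOne ℓ R :=
      Pool.Agent.T9h63.SC.mo_mul (h.one (D + 1) le_rfl) h.oneV
    rw [hPB, hs, mul_add] at hmult
    have h2 : multOne ℓ R = (ℓ ^ a - 1) * s := by omega
    rw [h1, h2, hs]
    calc s + (ℓ ^ a - 1) * s = (ℓ ^ a - 1 + 1) * s := by ring
      _ = s * ℓ ^ a := by rw [hm1, mul_comm]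
  have hG : Nat.card (ZMod (ℓ ^ a)) = ℓ ^ a := Nat.card_zmod _
  have hgram : ¬ (ℓ : ℤ) ∣ (intersectionMatrix c).det :=
    Pool.Agent.T9h63.SC.gram_int hG c hdet
  refine ⟨hS, hgram, ?_⟩
  intro n hn hcyc K H _ _ _ _ _ F B w hmid
  have : CharZero K := (algebraMap K ℂ).charZero
  have hw : LinearIndependent K w := by
    apply Pool.Agent.T9h63.SC.indep_of_gram B w (intersectionMatrix c) hmid.numbers
    intro h0
    rw [h0] at hgram
    exact hgram (dvd_zero _)
  have hcard : Pool.Agent.T9h63.SC.mo ℓ (P (D + 1) * R) = Fintype.card (Fin s × ZMod (ℓ ^ a)) := by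
    rw [Fintype.card_prod, Fintype.card_fin, ZMod.card]
    exact hS
  have hmain := Pool.Agent.T9h63.SC.tate_main hqm Fintype.one_lt_card hS0 hdvd d hn hcyc F
    hmid.eigenvalues w hw hmid.frobenius hcard
  refine ⟨⟨hw, ?_⟩, ?_, hmain.2.2⟩
  · apply le_antisymm
    · intro x hx
      rw [Module.End.mem_maxGenEigenspace] at hx
      exact hmain.1 x hx
    · rw [Submodule.span_le]
      rintro _ ⟨i, rfl⟩
      rw [SetLike.mem_coe, Module.End.mem_maxGenEigenspace]
      refine ⟨1, ?_⟩
      rw [pow_one, LinearMap.sub_apply, hmid.frobenius, LinearMap.smul_apply,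
        Module.End.one_apply, sub_self]
  · intro p r σ φ hpr hφ
    exact hmain.2.1 p r σ φ hpr hφ.semilinear hφ.power hφ.classes

end Pool.Agent.Results.MP_60ec62_ag.SplitCycles
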