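import Pool.Agent.T9h37.CT.FdMain

/-!
# The crystalline Tate conjecture for the products of arbitrary varieties with abelian varieties whose Frobenius
numbers are not generated by their traces

Let `Y` be an abelian variety and `V` an **arbitrary** smooth proper variety over the field `k` with
`Q = p ^ N` elements. We suppose for each eigenvalue `α` of Frobenius on a crystalline cohomology group `H^b(V)`
(if `b` is odd, `α` must not be of supersingular type) that there is an `n > 0` such that for each simple factor
of `Y` over the algebraic closure, with the Frobenius number `π` (the Frobenius endomorphism, in its CM
field), **one** of the following is true (`IsSepFd`):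

1. (`TraceApart`) for all complex conjugates `λ` of `π ^ n` and `β` of `α ^ n`: the number `λ` is real, or it
   is **not in the field `ℚ(λ + λ̄, β)`** generated by its trace and `β`;
2. (`PrimeApart`) `π ^ n` is an element of a CM field of degree `2 ℓ`, `ℓ` an odd **prime number**, which contains
   no imaginary quadratic field, and `ℓ` does not divide the order of the Galois group of the minimal
   polynomial of `α ^ n`; for example, `ℓ` is greater than the degree of `α`, so for instance greater
   than the Betti number `b_b(V)`.

**Theorem.** The crystalline Tate conjecture for `Y` and for `V`, over all finite extensions of `k`, implies the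
crystalline Tate conjecture for `Y × V`, in all codimensions `c`: each class in `H^{2c}(Y × V)` on which the
linear Frobenius endomorphism acts as `Q ^ c` is a linear combination of classes of algebraic cycles with
coefficients in the fraction field `K` of the ring of Witt vectors of `k` (if the generalised Tate classes of
`V`, with exponent `r`, are algebraic, the same holds for `Y × V`, and all generalised Tate classes of
exponent `r` are Tate classes), and each class which is multiplied by `p ^ c` by the semilinear crystalline
Frobenius endomorphism is a linear combination of classes of algebraic cycles with coefficients in the
field of `p`-adic numbers.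

For `Y` nothing has to be assumed (`KnownZ`) if `Y` is a product of a supersingular abelian variety and of a
power of one abelian variety **of odd prime dimension `ℓ` whose CM field contains no imaginary quadratic field**
(`IsPrimeDim`; any Newton polygon). For many other `Y` the crystalline Tate conjecture is known, for
example if the dimension of `Y` is at most five, or if `Y` is a product of elliptic curves and abelian
surfaces (theorems of Tate, Markman and Ramón Marí, and the starting files).

**Examples.** (a) Let `V` be a variety which satisfies the crystalline Tate conjecture and has no odd
supersingular eigenvalues, and let `ℓ` be a prime number greater than all Betti numbers of `V`. Then the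
conjecture is true for `A ^ m × V`, for all `m` and all abelian varieties `A` of dimension `ℓ` whose CM field
contains no imaginary quadratic field. So each variety `V` with the crystalline Tate conjecture gives varieties of
arbitrarily large dimension with this property, without any condition on the slopes of `A` and `V`, on the
Galois groups, or on the relations between the eigenvalues.

(b) Unconditional: `V` any K3 surface and `A` as above with `ℓ ≥ 23` (the case `ℓ ≥ 11` follows if one uses that
the Galois group of the Frobenius polynomial of the transcendental part is a subgroup of the group of
signed permutations of `10` elements); `V = S ^ m` for a K3 surface `S` for whose powers the conjecture is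
known, for example of odd height, with `ℓ ≥ 11`; `V` a product of curves of genus smaller than `ℓ` for which
the conjecture is known (no odd cohomology of supersingular type); any number of factors.

(c) Let `Y` be an abelian variety of dimension `≤ 5`, for example a simple abelian surface with the CM field
`E`, with the maximal real subfield `F`. If `V` is a K3 surface (or any surface) with
the Tate conjecture, then the only obstruction is that `E` is contained in `F(β)`, that is, that
`F(β) = E(β)` for some eigenvalue. In the starting files the analogous condition for one automorphism acting
as the complex conjugation on **all** CM fields of `Y` at the same time (`IsIndependent`) was used; here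
there can be a different automorphism for each embedding of each factor.

**What was known.** The starting files `MP_950c68_ag.FiveAndSurfacesTimesVarieties` (`ℓ`-adic; one
automorphism for all of `Y`), and the criteria with slopes, rank and degree of
`MP_60ec62_ag.SlopeSeparatedProducts` and `RankAndDegree`, which do not cover factors `Y` of large prime
dimension, nor products of many abelian varieties with general position fields. For abelian
varieties of prime dimension the Tate conjecture is due to Tankeev.

**The model** is the one of `SlopeSeparatedProducts`: `Y` is given by `RedAV`, `k` is the extension of degree `s`
of its ground field, with `p ^ N` elements, `N = Y.a * s`, `K` is the fraction field of the ring of Witt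
vectors of `k`, with the Frobenius automorphism `σ`; `Ω` is an algebraically closed field which contains
`K`; `D` is the dual space of the first crystalline cohomology group of `Y`, with the linear and semilinear
Frobenius endomorphisms `F₀` and `Ψ`; `Ω ⊗ D` is identified by `e` with `Ω ⊗ H_1`, where `F₀` is the
multiplication by `π ^ s` (`IsFirst`). `M b` is the crystalline cohomology group `H^b(V)`, with the semilinear
and linear Frobenius endomorphisms `Φ b`, `φ b`. By the Künneth formula `H^{2c}(Y × V)` is the sum of the
spaces of the alternating maps in `2 c - b` variables from `D` to `M b` (`CohYV`). `A k` and `B b` are the
sets of the linear combinations, with coefficients in `Ω`, of the classes of algebraic cycles on `Y` and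
`V` over finite extensions of `k`, and `Cyc` is the set of the classes of the algebraic cycles of
codimension `c` on `Y × V` over `k`; the facts used on them are `IsFixedYV` (the semilinear Frobenius multiplies
them by `p ^ c`) and `HasProducts` (products of cycles are cycles).

Idea of the proof. A Tate class on `Y × V` gives a relation `(∏ λ_i) ^ s α ^ t = Q ^ c` between Frobenius
eigenvalues `λ_i` of `Y` and `α` of `V`. The `p`-adic valuations of `∏ λ_i` and of its image under an
automorphism `τ` are the same if `τ` fixes a power of `α`. So they are equal to the mean value over the
group of these `τ`, and it is zero for each `λ_i` separately, as some `τ` in the group maps a power of `λ_i` to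
its complex conjugate. So `∏ λ_i` is of Tate type, and the class is a combination of products. For
factors of prime dimension the existence of `τ` follows from the action on the `2 ℓ` embeddings of the
normal subgroup of the automorphisms which fix all conjugates of `α`: it contains elements of order `ℓ`, and
if it had two orbits then they would define an imaginary quadratic subfield.
-/

set_option autoImplicit false

namespace Pool.Agent.Results.MP_60ec62_ag.TracesAndPrimeDimension

open Module Pool.Agent.W495.TA Pool.Agent.TH117.F5 Pool.Agent.R299.CRY Pool.Agent.T9h37.CT
open scoped TensorProduct

/-- **The crystalline Tate conjecture for `Y × V`**, `Y` an abelian variety and `V` an arbitrary variety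
over a finite field, where the Frobenius numbers of the factors of `Y` are not generated by their traces and
by powers of the Frobenius eigenvalues of `V`, or are of prime degree, in the linear form (and for
generalised eigenspaces) and in the form with `p`-adic coefficients. -/
theorem result (p : ℕ) [Fact p.Prime] (ν : PadicAlgCl p ≃+* ℂ) (K Ω D : Type) [Field K] [CharZero K]
    [Field Ω] [IsAlgClosed Ω] [CharZero Ω] [Algebra K Ω] [AddCommGroup D] [Module K D]
    [FiniteDimensional K D] (M : ℕ → Type) [∀ b, AddCommGroup (M b)] [∀ b, Module K (M b)]
    [∀ b, FiniteDimensional K (M b)]
    -- the abelian variety `Y`, and its crystalline cohomology over the field with `p ^ (Y.a * s)` elements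
    (Y : RedAV p ν) (s : ℕ) (hs : 0 < s) (σ : K ≃+* K) (Ψ : D → D) (F₀ : D →ₗ[K] D)
    (e : (Ω ⊗[K] D) ≃ₗ[Ω] TM Ω Y) (hΨ : IsDualFrob (Y.a * s) σ Ψ F₀) (he : IsFirst Y s F₀ e)
    -- the crystalline cohomology groups of the variety `V` over this field
    (Φ : ∀ b, M b → M b) (φ : ∀ b, M b →ₗ[K] M b) (hΦ : ∀ b, IsFrob (Y.a * s) σ (Φ b) (φ b))
    (hsep : AllSepFd Ω Y (Y.a * s) φ)
    -- the Tate conjecture for `Y` and `V`
    (A : ∀ k, Set ((TM Ω Y) [⋀^Fin k]→ₗ[Ω] Ω)) (hA : KnownZ Y A)
    (B : ∀ b, Set (Ω ⊗[K] M b)) (r : ℕ) (hr : 0 < r) (hB : TateV p (Y.a * s) φ B r)
    -- the classes of algebraic cycles of codimension `c` on `Y × V`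
    (c : ℕ) (Cyc : Set (CohYV K D M c)) (hC : ∀ z ∈ Cyc, IsFixedYV p Ψ Φ z)
    (hZ : HasProducts (Y.a * s) e F₀ φ A B Cyc) :
    (∀ f : CohYV K D M c, IsTateYV p (Y.a * s) F₀ φ r f →
      f ∈ Submodule.span K Cyc ∧ IsTateYV p (Y.a * s) F₀ φ 1 f) ∧
      ∀ f : CohYV K D M c, IsFixedYV p Ψ Φ f → IsPadicComb σ Cyc f :=
  bundled_fd Y s hs σ Ψ F₀ e hΨ he Φ φ hΦ hsep A hA B r hr hB c Cyc hC hZ

end Pool.Agent.Results.MP_60ec62_ag.TracesAndPrimeDimension
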